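import Pool.Agent.Lib.MP_100a6c_lc.IfaceB

/-!
# Module ORD: the ordinals of `V^B`; regular cardinals
-/

universe u

open scoped symmDiff

namespace Pool.Agent.Lib.MP_100a6c_lc.H68

open BName

variable {B : Type u} [CompleteBooleanAlgebra B]

/-! ## Ordinals -/

/-- The check name of an ordinal. -/
noncomputable def co (α : Ordinal.{u}) : BName B := check α.toZFSet

theorem beq_co_of_ne {α β : Ordinal.{u}} (h : α ≠ β) : beq (co α : BName B) (co β) = ⊥ :=
  beq_check_of_ne fun h' => h (Ordinal.toZFSet_injective h')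

theorem mem_co (z : BName B) (γ : Ordinal.{u}) :
    bmem z (co γ) = ⨆ (β : Ordinal.{u}) (_ : β < γ), beq z (co β) := by
  unfold co
  rw [mem_check]
  refine le_antisymm (iSup_le fun x => iSup_le fun hx => ?_)
    (iSup_le fun β => iSup_le fun hβ => ?_)
  · obtain ⟨β, hβ, rfl⟩ := Ordinal.mem_toZFSet_iff.1 hx
    exact le_iSup_of_le β (le_iSup_of_le hβ le_rfl)
  · exact le_iSup_of_le β.toZFSet (le_iSup_of_le (Ordinal.toZFSet_mem_toZFSet_iff.2 hβ) le_rfl)

theorem mem_co_co {β γ : Ordinal.{u}} (h : β < γ) : bmem (co β : BName B) (co γ) = ⊤ :=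
  mem_check_of_mem (Ordinal.toZFSet_mem_toZFSet_iff.2 h)

theorem isOrd_elem (x : BName B) (i : x.ix) :
    (VB B).isOrd x ⊓ x.vl i ≤ (VB B).isOrd (x.nm i) := by
  have hm : (VB B).isOrd x ⊓ x.vl i ≤ bmem (x.nm i) x := inf_le_right.trans (vl_le_bmem x i)
  have h1 : (VB B).isOrd x ≤ (VB B).isTrans x := inf_le_left
  have h2 : (VB B).isOrd x ≤ ⨅ y, (VB B).mem y x ⇨ (VB B).isTrans y := inf_le_right
  have h3 : (VB B).isOrd x ⊓ x.vl i ≤ (VB B).sub (x.nm i) x :=
    iInf_himp_apply h1 (x.nm i) inf_le_left hm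
  refine le_inf (iInf_himp_apply h2 (x.nm i) inf_le_left hm) (le_iInf fun z => ?_)
  rw [le_himp_iff]
  exact iInf_himp_apply h2 z (inf_le_left.trans inf_le_left)
    (sub_apply h3 z inf_le_left inf_le_right)

/-- Only few ordinals are elements of `x`. -/
theorem exists_bound (x : BName B) : ∃ α : Ordinal.{u}, bmem (co α) x = ⊥ := by
  classical
  by_contra h
  push Not at h
  have h1 : ∀ α : Ordinal.{u}, ∃ i : x.ix, x.vl i ⊓ beq (co α) (x.nm i) ≠ ⊥ := by
    intro α
    by_contra h2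
    push Not at h2
    apply h α
    rw [bmem_def]
    exact iSup_eq_bot.2 h2
  choose i hi using h1
  let f : Ordinal.{u} → x.ix × B := fun α => (i α, x.vl (i α) ⊓ beq (co α) (x.nm (i α)))
  have hf : Function.Injective f := by
    intro α β hαβ
    by_contra hne
    have e1 : i α = i β := congrArg Prod.fst hαβ
    have e2 : x.vl (i α) ⊓ beq (co α) (x.nm (i α)) = x.vl (i β) ⊓ beq (co β) (x.nm (i β)) :=
      congrArg Prod.snd hαβ
    apply hi α
    rw [eq_bot_iff, ← beq_co_of_ne (B := B) hne]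
    refine (ext_eq_right (co α)).of_le' (x := x.nm (i α)) ?_ inf_le_right
    rw [e2, e1]
    exact inf_le_right
  exact not_small_ordinal.{u} (small_of_injective hf)

theorem ord1 (x : BName B) : (VB B).isOrd x ≤ ⨆ α : Ordinal.{u}, beq x (co α) := by
  induction x with
  | mk ι a p ih =>
    set x : BName B := mk ι a p with hx
    have hel : ∀ z, (VB B).isOrd x ⊓ bmem z x ≤ ⨆ α : Ordinal.{u}, beq z (co α) := by
      intro z
      rw [bmem_def, inf_iSup_eq]
      refine iSup_le fun i => ?_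
      have h1 : (VB B).isOrd x ⊓ (x.vl i ⊓ beq z (x.nm i)) ≤ ⨆ α : Ordinal.{u}, beq (x.nm i) (co α) :=
        le_trans (le_trans (le_inf inf_le_left (inf_le_right.trans inf_le_left))
          (isOrd_elem x i)) (ih i)
      have h2 : Ext (fun w : BName B => ⨆ α : Ordinal.{u}, beq w (co α)) :=
        Ext.iSup fun α => ext_eq_left _
      exact h2.of_le' (inf_le_right.trans inf_le_right) h1
    set G := (VB B).isOrd x with hG
    set e : Ordinal.{u} → B := fun γ =>
      G ⊓ (⨅ (β : Ordinal.{u}) (_ : β < γ), bmem (co β) x) ⊓ (bmem (co γ) x)ᶜ with he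
    have hsum : G ≤ ⨆ γ, e γ := by
      obtain ⟨α, hα⟩ := exists_bound x
      have key : ∀ γ : Ordinal.{u}, G ⊓ (⨆ γ, e γ)ᶜ ≤ bmem (co γ) x := by
        intro γ
        induction γ using WellFoundedLT.induction with
        | _ γ ihγ =>
          have h1 : G ⊓ (⨆ γ, e γ)ᶜ ⊓ (bmem (co γ) x)ᶜ ≤ ⊥ := by
            have h2 : G ⊓ (⨆ γ, e γ)ᶜ ⊓ (bmem (co γ) x)ᶜ ≤ ⨆ γ, e γ := by
              refine le_iSup_of_le γ (le_inf (le_inf (inf_le_left.trans inf_le_left) ?_)
                inf_le_right)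
              exact le_iInf fun β => le_iInf fun hβ => inf_le_left.trans (ihγ β hβ)
            have h3 : G ⊓ (⨆ γ, e γ)ᶜ ⊓ (bmem (co γ) x)ᶜ ≤ (⨆ γ, e γ)ᶜ :=
              inf_le_left.trans inf_le_right
            exact (le_inf h2 h3).trans (by rw [inf_compl_self])
          rw [← compl_compl (bmem (co γ) x)]
          rw [le_compl_iff_disjoint_right, disjoint_iff_inf_le]
          exact h1
      have h4 := key α
      rw [hα, le_bot_iff, ← disjoint_iff, ← le_compl_iff_disjoint_right, compl_compl] at h4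
      exact h4
    refine hsum.trans (iSup_le fun γ => le_iSup_of_le γ ?_)
    have hcon : ∀ {z : BName B} {Δ : B}, Δ ≤ e γ → Δ ≤ beq z (co γ) → Δ ≤ bmem z x → Δ ≤ ⊥ := by
      intro z Δ h1 h2 h3
      have h4 : Δ ≤ bmem (co γ) x := (ext_mem_left x).of_le h2 h3
      exact (le_inf h4 (h1.trans inf_le_right)).trans (by rw [inf_compl_self])
    refine le_trans (le_inf ?_ ?_) (sub_inf_sub_le x (co γ))
    · refine le_iInf fun z => ?_
      rw [le_himp_iff]
      have h1 : e γ ⊓ bmem z x ≤ ⨆ α : Ordinal.{u}, beq z (co α) :=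
        le_trans (inf_le_inf_right _ (inf_le_left.trans inf_le_left)) (hel z)
      refine le_trans (le_inf le_rfl h1) ?_
      rw [inf_iSup_eq]
      refine iSup_le fun α => ?_
      rcases lt_trichotomy α γ with h | h | h
      · refine (ext_mem_left (co γ)).of_le' (x := co α) inf_le_right ?_
        rw [mem_co_co h]
        exact le_top
      · subst h
        exact (hcon (inf_le_left.trans inf_le_left) inf_le_right
          (inf_le_left.trans inf_le_right)).trans bot_le
      · refine le_trans ?_ bot_le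
        -- `γ ∈ α = z ⊆ x`
        have h2 : G ≤ (VB B).isTrans x := inf_le_left
        have h3 : e γ ⊓ (VB B).mem z x ⊓ beq z (co α) ≤ (VB B).sub z x :=
          iInf_himp_apply h2 z (inf_le_left.trans (inf_le_left.trans (inf_le_left.trans
            inf_le_left))) (inf_le_left.trans inf_le_right)
        have h4 : e γ ⊓ (VB B).mem z x ⊓ beq z (co α) ≤ bmem (co γ) z := by
          refine (ext_mem_right (co γ)).of_le' (x := co α) inf_le_right ?_
          rw [mem_co_co h]
          exact le_top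
        exact hcon (z := co γ) (inf_le_left.trans inf_le_left)
          (by rw [beq_refl]; exact le_top) (sub_apply h3 (co γ) le_rfl h4)
    · unfold co
      rw [sub_check_iff]
      refine le_iInf fun z => le_iInf fun hz => ?_
      obtain ⟨β, hβ, rfl⟩ := Ordinal.mem_toZFSet_iff.1 hz
      exact (inf_le_left.trans inf_le_right).trans (iInf_le_of_le β (iInf_le _ hβ))

/-! ## Regular cardinals -/

theorem isFun_check {f ρ Θ : ZFSet.{u}} (h : ZFSet.IsFunc ρ Θ f) :
    (VB B).isFun (check f) (check ρ) (check Θ) = ⊤ := by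
  rw [eq_top_iff]
  refine le_inf (le_inf ?_ ?_) ?_
  · refine le_trans ?_ (iInf_VBcheck (φ := fun p => ⨆ x, ⨆ y, (VB B).mem x (check ρ) ⊓
      (VB B).mem y (check Θ) ⊓ (VB B).isPair p x y) (Ext.iSup fun x => Ext.iSup fun y =>
        (Ext.const _).inf (ext_isPair_fst x y)) f).ge
    refine le_iInf fun q => le_iInf fun hq => ?_
    obtain ⟨a, ha, b, hb, rfl⟩ := ZFSet.mem_prod.1 (h.1 hq)
    refine le_iSup_of_le (check a) (le_iSup_of_le (check b) (le_inf (le_inf ?_ ?_) ?_))
    · rw [VB_mem, mem_check_of_mem ha]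
    · rw [VB_mem, mem_check_of_mem hb]
    · rw [isPair_eq, beq_symm, beq_opr_check]
  · refine le_trans ?_ (iInf_VBcheck (φ := fun x => ⨆ y, (VB B).rel (check f) x y)
      (Ext.iSup fun y => ext_rel_snd (check f) y) ρ).ge
    refine le_iInf fun a => le_iInf fun ha => ?_
    obtain ⟨b, hb⟩ := (h.2 a ha).exists
    refine le_iSup_of_le (check b) ?_
    rw [rel_check_check_of_mem hb]
  · refine le_iInf fun x => le_iInf fun y => le_iInf fun y' => ?_
    rw [le_himp_iff, top_inf_eq, rel_check, rel_check]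
    have e1 : ∀ a : BName B, (⨆ (p : ZFSet.{u}) (q : ZFSet.{u}) (_ : ZFSet.pair p q ∈ f),
        beq x (check p) ⊓ beq a (check q)) = ⨆ (r : {r : ZFSet.{u} × ZFSet.{u} //
          ZFSet.pair r.1 r.2 ∈ f}), beq x (check r.1.1) ⊓ beq a (check r.1.2) := by
      intro a
      refine le_antisymm ?_ ?_
      · exact iSup_le fun p => iSup_le fun q => iSup_le fun h => le_iSup_of_le ⟨(p, q), h⟩ le_rfl
      · exact iSup_le fun r => le_iSup_of_le r.1.1 (le_iSup_of_le r.1.2 (le_iSup_of_le r.2 le_rfl))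
    rw [e1, e1, iSup_inf_iSup]
    refine iSup_le fun ⟨⟨⟨p, q⟩, hpq⟩, ⟨⟨p', q'⟩, hpq'⟩⟩ => ?_
    change beq x (check p) ⊓ beq y (check q) ⊓ (beq x (check p') ⊓ beq y' (check q')) ≤ beq y y'
    by_cases hp : p = p'
    · subst hp
      have hpρ := (ZFSet.pair_mem_prod.1 (h.1 hpq)).1
      obtain rfl := (h.2 p hpρ).unique hpq hpq'
      exact (ext_eq_right y).of_le' (x := check q) (inf_le_right.trans inf_le_right)
        (inf_le_left.trans inf_le_right)
    · refine le_trans ?_ bot_le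
      rw [← beq_check_of_ne (B := B) hp]
      exact (ext_eq_left (check p')).of_le (x := x) (inf_le_left.trans inf_le_left)
        (inf_le_right.trans inf_le_left)

theorem ord2 (Θ : ZFSet.{u}) (h : (VB B).isReg (check Θ) ≠ ⊥) : V.isReg Θ := by
  have hord : Θ.IsOrdinal := by
    by_contra h'
    apply h
    rw [eq_bot_iff, ← isOrd_check_of_not (B := B) h']
    exact inf_le_left.trans (inf_le_left.trans inf_le_left)
  have hne : ∃ x, x ∈ Θ := by
    by_contra h'
    push Not at h'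
    apply h
    rw [eq_bot_iff]
    refine (inf_le_left.trans (inf_le_left.trans inf_le_right)).trans (iSup_le fun x => ?_)
    rw [VB_mem, mem_check]
    exact iSup_le fun y => iSup_le fun hy => absurd hy (h' y)
  have hlim : ∀ x, x ∈ Θ → ∃ y, y ∈ Θ ∧ x ∈ y := by
    intro x hx
    by_contra h'
    push Not at h'
    apply h
    have h0 : (VB B).isReg (check Θ) ≤ ⨅ x, (VB B).mem x (check Θ) ⇨
        ⨆ y, (VB B).mem y (check Θ) ⊓ (VB B).mem x y := inf_le_left.trans inf_le_right
    have h1 : (VB B).isReg (check Θ) ≤ ⨆ y, (VB B).mem y (check Θ) ⊓ (VB B).mem (check x) y :=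
      iInf_himp_apply h0 (check x) le_rfl (by
        rw [VB_mem, mem_check_of_mem hx]; exact le_top)
    rw [iSup_VBcheck (ext_VBmem_right (check x))] at h1
    rw [eq_bot_iff]
    refine h1.trans (iSup_le fun y => iSup_le fun hy => ?_)
    rw [VB_mem, mem_check_of_not_mem (h' y hy)]
  have hbd : ∀ ρ, ρ ∈ Θ → ∀ f, ZFSet.IsFunc ρ Θ f →
      ∃ β, β ∈ Θ ∧ ∀ x y, ZFSet.pair x y ∈ f → y ∈ β := by
    intro ρ hρ f hf
    by_contra h'
    push Not at h'
    apply h
    have h0 : (VB B).isReg (check Θ) ≤ ⨅ ρ, (VB B).mem ρ (check Θ) ⇨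
        ⨅ f, (VB B).isFun f ρ (check Θ) ⇨
        ⨆ β, (VB B).mem β (check Θ) ⊓ ⨅ x, ⨅ y, (VB B).rel f x y ⇨ (VB B).mem y β := inf_le_right
    have h1 : (VB B).isReg (check Θ) ≤ ⨅ f, (VB B).isFun f (check ρ) (check Θ) ⇨
        ⨆ β, (VB B).mem β (check Θ) ⊓ ⨅ x, ⨅ y, (VB B).rel f x y ⇨ (VB B).mem y β :=
      iInf_himp_apply h0 (check ρ) le_rfl (by
        rw [VB_mem, mem_check_of_mem hρ]; exact le_top)
    have h2 : (VB B).isReg (check Θ) ≤
        ⨆ β, (VB B).mem β (check Θ) ⊓ ⨅ x, ⨅ y, (VB B).rel (check f) x y ⇨ (VB B).mem y β :=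
      iInf_himp_apply h1 (check f) le_rfl (by rw [isFun_check hf]; exact le_top)
    rw [iSup_VBcheck (Ext.iInf fun x => Ext.iInf fun y => (Ext.const _).himp
      (ext_VBmem_right y))] at h2
    rw [eq_bot_iff]
    refine h2.trans (iSup_le fun β => iSup_le fun hβ => ?_)
    obtain ⟨x, y, hxy, hy⟩ := h' β hβ
    refine (iInf_le _ (check x)).trans ((iInf_le _ (check y)).trans ?_)
    rw [rel_check_check_of_mem hxy, top_himp, VB_mem, mem_check_of_not_mem hy]
  unfold Str.isReg
  simp only [iInf_Prop_eq, iSup_Prop_eq, inf_Prop_eq, H77.himp_prop, H77.V_mem, H77.rel_iff,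
    H77.isOrd_iff, H77.isFun_iff]
  exact ⟨⟨⟨hord, hne⟩, hlim⟩, hbd⟩

/-- [ORD] -/
theorem ord : OrdStatement.{u} := by
  intro B _
  refine ⟨fun x => (ord1 x).trans (iSup_le fun α => ?_), ord2⟩
  exact le_iSup_of_le (⟨α.toZFSet, ZFSet.isOrdinal_toZFSet α⟩ : {y : ZFSet.{u} // y.IsOrdinal})
    le_rfl

end Pool.Agent.Lib.MP_100a6c_lc.H68
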